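import Mathlib

namespace Pool.Agent.Results.MP_d06a13_ag.VNumberExceedsDepth

open MvPolynomial

/-- A squarefree monomial ideal of `K[x_0, ..., x_{n-1}]`: a proper ideal generated by squarefree
monomials `∏ i ∈ A, x_i`. -/
def IsSquarefreeMonomialIdeal {K : Type*} [Field K] {n : ℕ}
    (I : Ideal (MvPolynomial (Fin n) K)) : Prop :=
  I ≠ ⊤ ∧ ∃ 𝒜 : Set (Finset (Fin n)),
    I = Ideal.span ((fun A : Finset (Fin n) => ∏ i ∈ A, (X i : MvPolynomial (Fin n) K)) '' 𝒜)

/-- The v-number of an ideal `I` of `R = K[x_0, ..., x_{n-1}]`: the least degree `d` of a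
homogeneous `f` such that `(I : f)` is an associated prime of `R / I`. -/
noncomputable def vNumber {K : Type*} [Field K] {n : ℕ}
    (I : Ideal (MvPolynomial (Fin n) K)) : ℕ∞ :=
  sInf {d : ℕ∞ | ∃ (e : ℕ) (f : MvPolynomial (Fin n) K), d = (e : ℕ∞) ∧ f.IsHomogeneous e ∧
    Submodule.colon I ({f} : Set (MvPolynomial (Fin n) K)) ∈
      associatedPrimes (MvPolynomial (Fin n) K) (MvPolynomial (Fin n) K ⧸ I)}

/-- The depth of `R / I` with respect to the homogeneous maximal ideal `(x_0, ..., x_{n-1})`: the
supremum of the lengths of `R / I`-regular sequences of elements of that ideal. -/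
noncomputable def depthQuot {K : Type*} [Field K] {n : ℕ}
    (I : Ideal (MvPolynomial (Fin n) K)) : ℕ∞ :=
  sSup {d : ℕ∞ | ∃ rs : List (MvPolynomial (Fin n) K),
    (∀ r ∈ rs, r ∈ Ideal.span (Set.range (X : Fin n → MvPolynomial (Fin n) K))) ∧
    RingTheory.Sequence.IsRegular (MvPolynomial (Fin n) K ⧸ I) rs ∧ d = (rs.length : ℕ∞)}

section aux

variable {K : Type*} [Field K] {n : ℕ}

/-- exponent vector of the squarefree monomial of `A` -/
noncomputable def ind (A : Finset (Fin n)) : Fin n →₀ ℕ := ∑ i ∈ A, Finsupp.single i 1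

lemma ind_apply (A : Finset (Fin n)) (i : Fin n) : ind A i = if i ∈ A then 1 else 0 := by
  classical
  simp [ind, Finsupp.finsetSum_apply, Finsupp.single_apply]

lemma prod_X_eq (A : Finset (Fin n)) :
    (∏ i ∈ A, (X i : MvPolynomial (Fin n) K)) = monomial (ind A) 1 := by
  classical
  unfold ind
  induction A using Finset.induction_on with
  | empty => simp
  | insert a s ha ih =>
    rw [Finset.prod_insert ha, Finset.sum_insert ha, ih, X, monomial_mul, one_mul]

/-- generators: the vertex set `P`, its complement, and the pairs between them -/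
def gens (P : Finset (Fin n)) : Set (Finset (Fin n)) :=
  {A | A = P ∨ A = Pᶜ ∨ ∃ i ∈ P, ∃ j ∉ P, A = {i, j}}

/-- the ideal of two disjoint boundaries of simplices -/
noncomputable def I (K : Type*) [Field K] (P : Finset (Fin n)) : Ideal (MvPolynomial (Fin n) K) :=
  Ideal.span ((fun A : Finset (Fin n) => ∏ i ∈ A, (X i : MvPolynomial (Fin n) K)) '' gens P)

def Bad (P : Finset (Fin n)) (m : Fin n →₀ ℕ) : Prop :=
  (∀ i ∈ P, m i ≠ 0) ∨ (∀ i ∉ P, m i ≠ 0) ∨ ∃ i ∈ P, ∃ j ∉ P, m i ≠ 0 ∧ m j ≠ 0

lemma ind_le_iff (A : Finset (Fin n)) (m : Fin n →₀ ℕ) : ind A ≤ m ↔ ∀ i ∈ A, m i ≠ 0 := by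
  constructor
  · intro h i hi
    have := h i
    rw [ind_apply, if_pos hi] at this
    omega
  · intro h i
    rw [ind_apply]
    split_ifs with hi
    · have := h i hi
      omega
    · exact Nat.zero_le _

lemma mem_I_iff (P : Finset (Fin n)) (f : MvPolynomial (Fin n) K) :
    f ∈ I K P ↔ ∀ m ∈ f.support, Bad P m := by
  have h1 : ((fun A : Finset (Fin n) => ∏ i ∈ A, (X i : MvPolynomial (Fin n) K)) '' gens P)
      = (fun s => monomial s (1 : K)) '' (ind '' gens P) := by
    rw [Set.image_image]
    apply Set.image_congr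
    intro A _
    exact prod_X_eq A
  rw [I, h1, mem_ideal_span_monomial_image]
  refine forall₂_congr fun m _ => ?_
  constructor
  · rintro ⟨_, ⟨A, hA, rfl⟩, hle⟩
    rw [ind_le_iff] at hle
    rcases hA with rfl | rfl | ⟨i, hi, j, hj, rfl⟩
    · exact Or.inl hle
    · exact Or.inr (Or.inl fun i hi => hle i (Finset.mem_compl.mpr hi))
    · exact Or.inr (Or.inr ⟨i, hi, j, hj, hle i (by simp), hle j (by simp)⟩)
  · rintro (h | h | ⟨i, hi, j, hj, h1, h2⟩)
    · exact ⟨_, ⟨P, Or.inl rfl, rfl⟩, (ind_le_iff _ _).mpr h⟩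
    · exact ⟨_, ⟨Pᶜ, Or.inr (Or.inl rfl), rfl⟩, (ind_le_iff _ _).mpr
        fun i hi => h i (Finset.mem_compl.mp hi)⟩
    · refine ⟨_, ⟨{i, j}, Or.inr (Or.inr ⟨i, hi, j, hj, rfl⟩), rfl⟩, (ind_le_iff _ _).mpr ?_⟩
      intro a ha
      simp only [Finset.mem_insert, Finset.mem_singleton] at ha
      rcases ha with rfl | rfl
      · exact h1
      · exact h2

lemma mul_X_mem_iff (P : Finset (Fin n)) (f : MvPolynomial (Fin n) K) (i : Fin n) :
    f * X i ∈ I K P ↔ ∀ m ∈ f.support, Bad P (m + Finsupp.single i 1) := by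
  rw [mem_I_iff, support_mul_X]
  simp

lemma bad_compl (P : Finset (Fin n)) (m : Fin n →₀ ℕ) : Bad Pᶜ m ↔ Bad P m := by
  unfold Bad
  simp only [Finset.mem_compl, not_not]
  constructor
  · rintro (h | h | ⟨i, hi, j, hj, h1, h2⟩)
    · exact Or.inr (Or.inl h)
    · exact Or.inl h
    · exact Or.inr (Or.inr ⟨j, hj, i, hi, h2, h1⟩)
  · rintro (h | h | ⟨i, hi, j, hj, h1, h2⟩)
    · exact Or.inr (Or.inl h)
    · exact Or.inl h
    · exact Or.inr (Or.inr ⟨j, hj, i, hi, h2, h1⟩)

lemma I_compl (P : Finset (Fin n)) : I K Pᶜ = I K P := by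
  ext f
  rw [mem_I_iff, mem_I_iff]
  simp only [bad_compl]

/-- a non-bad monomial supported (weakly) on the complement of `P` stays non-bad after
multiplication by a suitable variable outside `P` -/
lemma exists_out (P : Finset (Fin n)) (hP' : 2 ≤ Pᶜ.card) (hP : P.Nonempty) (m : Fin n →₀ ℕ)
    (hm : ¬ Bad P m) (hmP : ∀ i ∈ P, m i = 0) : ∃ j ∉ P, ¬ Bad P (m + Finsupp.single j 1) := by
  classical
  unfold Bad at hm
  push Not at hm
  obtain ⟨h1, ⟨b, hb, hb0⟩, h3⟩ := hm
  obtain ⟨a, haP⟩ := hP
  by_cases hex : ∃ j ∉ P, m j ≠ 0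
  · obtain ⟨j, hj, hj0⟩ := hex
    refine ⟨j, hj, ?_⟩
    rintro (h | h | ⟨i, hi, l, hl, hi1, hl1⟩)
    · have := h a haP
      rw [Finsupp.add_apply, hmP a haP, Finsupp.single_apply, if_neg] at this
      · exact this rfl
      · rintro rfl
        exact hj haP
    · have := h b hb
      rw [Finsupp.add_apply, hb0, Finsupp.single_apply, if_neg] at this
      · exact this rfl
      · rintro rfl
        exact hj0 hb0
    · rw [Finsupp.add_apply, hmP i hi, Finsupp.single_apply, if_neg] at hi1
      · exact hi1 rfl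
      · rintro rfl
        exact hj hi
  · push Not at hex
    -- `m` vanishes everywhere
    obtain ⟨b', hb', hbb⟩ := Finset.exists_mem_ne (by omega : 1 < Pᶜ.card) b
    rw [Finset.mem_compl] at hb'
    refine ⟨b, hb, ?_⟩
    rintro (h | h | ⟨i, hi, l, hl, hi1, hl1⟩)
    · have := h a haP
      rw [Finsupp.add_apply, hmP a haP, Finsupp.single_apply, if_neg] at this
      · exact this rfl
      · rintro rfl
        exact hb haP
    · have := h b' hb'
      rw [Finsupp.add_apply, hex b' hb', Finsupp.single_apply, if_neg (Ne.symm hbb)] at this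
      exact this rfl
    · rw [Finsupp.add_apply, hmP i hi, Finsupp.single_apply, if_neg] at hi1
      · exact hi1 rfl
      · rintro rfl
        exact hb hi

/-- main degree estimate, when a variable of `P` is missing from the prime -/
lemma degree_bound (P : Finset (Fin n)) (hP : 2 ≤ P.card) (hP' : 2 ≤ Pᶜ.card)
    (f : MvPolynomial (Fin n) K) (d : ℕ) (hf : f.IsHomogeneous d)
    (hp : (Submodule.colon (I K P) ({f} : Set (MvPolynomial (Fin n) K))).IsPrime)
    (a : Fin n) (ha : a ∈ P)
    (hap : (X a : MvPolynomial (Fin n) K) ∉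
      Submodule.colon (I K P) ({f} : Set (MvPolynomial (Fin n) K))) :
    P.card ≤ d + 1 := by
  classical
  set p := Submodule.colon (I K P) ({f} : Set (MvPolynomial (Fin n) K)) with hpdef
  have hle : I K P ≤ p := by
    intro r hr
    rw [hpdef, Submodule.mem_colon_singleton]
    exact (I K P).mul_mem_right f hr
  have hmem : ∀ r, r ∈ p ↔ r * f ∈ I K P := by
    intro r
    rw [hpdef, Submodule.mem_colon_singleton]
    rfl
  have hout : ∀ j ∉ P, f * X j ∈ I K P := by
    intro j hj
    have h1 : (X a : MvPolynomial (Fin n) K) * X j ∈ p := by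
      apply hle
      apply Ideal.subset_span
      refine ⟨{a, j}, Or.inr (Or.inr ⟨a, ha, j, hj, rfl⟩), ?_⟩
      have hne : a ≠ j := by
        rintro rfl
        exact hj ha
      simp [Finset.prod_pair hne]
    have h2 := (hp.mem_or_mem h1).resolve_left hap
    rw [hmem] at h2
    rwa [mul_comm]
  have hin : ∃ b ∈ P, f * X b ∈ I K P := by
    have h1 : (∏ i ∈ P, (X i : MvPolynomial (Fin n) K)) ∈ p := by
      apply hle
      apply Ideal.subset_span
      exact ⟨P, Or.inl rfl, rfl⟩
    obtain ⟨b, hb, hbp⟩ := (Ideal.IsPrime.prod_mem_iff (hp := hp)).mp h1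
    refine ⟨b, hb, ?_⟩
    rw [hmem] at hbp
    rwa [mul_comm]
  obtain ⟨b, hb, hbI⟩ := hin
  have hfI : f ∉ I K P := by
    intro h
    apply hp.ne_top
    rw [Ideal.eq_top_iff_one, hmem, one_mul]
    exact h
  rw [mem_I_iff] at hfI
  push Not at hfI
  obtain ⟨m, hm, hbad⟩ := hfI
  have hdeg : m.degree = d := by
    have := hf (mem_support_iff.mp hm)
    rw [Finsupp.degree_eq_weight_one]
    exact this
  -- `m` is not supported on the complement
  have hsupp : ∃ i ∈ P, m i ≠ 0 := by
    by_contra hcon
    push Not at hcon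
    obtain ⟨j, hj, hjb⟩ := exists_out P hP' (Finset.card_pos.mp (by omega)) m hbad hcon
    exact hjb ((mul_X_mem_iff P f j).mp (hout j hj) m hm)
  have hb2 := (mul_X_mem_iff P f b).mp hbI m hm
  unfold Bad at hbad
  push Not at hbad
  obtain ⟨h1, ⟨c, hc, hc0⟩, h3⟩ := hbad
  obtain ⟨i0, hi0, hi00⟩ := hsupp
  have hall : ∀ i ∈ P, i ≠ b → m i ≠ 0 := by
    rcases hb2 with h | h | ⟨i, hi, l, hl, hi1, hl1⟩
    · intro i hi hib
      have := h i hi
      rwa [Finsupp.add_apply, Finsupp.single_apply, if_neg (Ne.symm hib), add_zero] at this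
    · exfalso
      have := h c hc
      rw [Finsupp.add_apply, hc0, Finsupp.single_apply, if_neg] at this
      · exact this rfl
      · rintro rfl
        exact hc hb
    · exfalso
      have hlb : b ≠ l := by
        rintro rfl
        exact hl hb
      rw [Finsupp.add_apply, Finsupp.single_apply, if_neg hlb, add_zero] at hl1
      exact hl1 (h3 i0 hi0 l hl hi00)
  have hsub : P.erase b ⊆ m.support := by
    intro i hi
    rw [Finset.mem_erase] at hi
    exact Finsupp.mem_support_iff.mpr (hall i hi.2 hi.1)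
  have hcard : (P.erase b).card ≤ m.degree := by
    calc (P.erase b).card ≤ m.support.card := Finset.card_le_card hsub
      _ = ∑ i ∈ m.support, 1 := by simp
      _ ≤ ∑ i ∈ m.support, m i := by
          apply Finset.sum_le_sum
          intro i hi
          have := Finsupp.mem_support_iff.mp hi
          omega
      _ = m.degree := rfl
  rw [Finset.card_erase_of_mem hb, hdeg] at hcard
  omega

lemma vNumber_ge (P : Finset (Fin n)) (k : ℕ) (hk : 2 ≤ k) (hP : P.card = k)
    (hP' : Pᶜ.card = k) : ((k - 1 : ℕ) : ℕ∞) ≤ vNumber (I K P) := by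
  classical
  unfold vNumber
  apply le_sInf
  rintro _ ⟨e, f, rfl, hf, hass⟩
  have hp := hass.isPrime
  norm_cast
  set p := Submodule.colon (I K P) ({f} : Set (MvPolynomial (Fin n) K)) with hpdef
  have hmem : ∀ r, r ∈ p ↔ r * f ∈ I K P := by
    intro r
    rw [hpdef, Submodule.mem_colon_singleton]
    rfl
  by_cases hall : ∀ i, (X i : MvPolynomial (Fin n) K) ∈ p
  · exfalso
    have hfI : f ∉ I K P := by
      intro h
      apply hp.ne_top
      rw [Ideal.eq_top_iff_one, hmem, one_mul]
      exact h
    have hfI' := hfI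
    rw [mem_I_iff] at hfI
    push Not at hfI
    obtain ⟨m, hm, hbad⟩ := hfI
    by_cases hx : ∀ i ∈ P, m i = 0
    · obtain ⟨j, hj, hjb⟩ := exists_out P (by omega) (Finset.card_pos.mp (by omega)) m hbad hx
      have h1 := hall j
      rw [hmem, mul_comm] at h1
      exact hjb ((mul_X_mem_iff P f j).mp h1 m hm)
    · have hy : ∀ i ∈ Pᶜ, m i = 0 := by
        push Not at hx
        obtain ⟨i0, hi0, hi00⟩ := hx
        unfold Bad at hbad
        push Not at hbad
        intro i hi
        exact hbad.2.2 i0 hi0 i (Finset.mem_compl.mp hi) hi00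
      have hbad' : ¬ Bad Pᶜ m := by rwa [bad_compl]
      obtain ⟨j, hj, hjb⟩ := exists_out Pᶜ (by rw [compl_compl]; omega)
        (Finset.card_pos.mp (by omega)) m hbad' hy
      rw [bad_compl] at hjb
      have h1 := hall j
      rw [hmem, mul_comm] at h1
      exact hjb ((mul_X_mem_iff P f j).mp h1 m hm)
  · push Not at hall
    obtain ⟨a, ha⟩ := hall
    by_cases haP : a ∈ P
    · have := degree_bound P (by omega) (by omega) f e hf hp a haP ha
      omega
    · have hp' : (Submodule.colon (I K Pᶜ) ({f} : Set (MvPolynomial (Fin n) K))).IsPrime := by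
        rw [I_compl]; exact hp
      have := degree_bound Pᶜ (by omega) (by rw [compl_compl]; omega) f e hf hp' a
        (Finset.mem_compl.mpr haP) (by rw [I_compl]; exact ha)
      omega

lemma mem_idealX_iff (f : MvPolynomial (Fin n) K) :
    f ∈ Ideal.span (Set.range (X : Fin n → MvPolynomial (Fin n) K)) →
      ∀ m ∈ f.support, ∃ i, m i ≠ 0 := by
  intro hf m hm
  rw [← Set.image_univ, mem_ideal_span_X_image] at hf
  obtain ⟨i, _, hi⟩ := hf m hm
  exact ⟨i, hi⟩

/-- the part of `f` made of the monomials supported on `P` -/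
noncomputable def part (P : Finset (Fin n)) (f : MvPolynomial (Fin n) K) :
    MvPolynomial (Fin n) K := by
  classical
  exact ∑ m ∈ f.support.filter (fun m => ∀ i ∉ P, m i = 0), monomial m (coeff m f)

lemma coeff_part (P : Finset (Fin n)) (f : MvPolynomial (Fin n) K) (m : Fin n →₀ ℕ)
    [Decidable (∀ i ∉ P, m i = 0)] :
    coeff m (part P f) = if (∀ i ∉ P, m i = 0) then coeff m f else 0 := by
  classical
  unfold part
  rw [coeff_sum]
  simp only [coeff_monomial]
  rw [Finset.sum_ite_eq']
  by_cases hm : ∀ i ∉ P, m i = 0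
  · rw [if_pos hm]
    split_ifs with h
    · rfl
    · rw [Finset.mem_filter, not_and] at h
      by_contra hc
      exact h (mem_support_iff.mpr (Ne.symm hc)) hm
  · rw [if_neg hm, if_neg]
    rw [Finset.mem_filter, not_and]
    intro _
    exact hm

lemma support_part (P : Finset (Fin n)) (f : MvPolynomial (Fin n) K) (m : Fin n →₀ ℕ)
    (hm : m ∈ (part P f).support) : m ∈ f.support ∧ ∀ i ∉ P, m i = 0 := by
  classical
  rw [mem_support_iff, coeff_part] at hm
  split_ifs at hm with h
  · exact ⟨mem_support_iff.mpr hm, h⟩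
  · exact absurd rfl hm

/-- a monomial meeting both `P` and its complement is bad -/
lemma bad_of_both (P : Finset (Fin n)) (m : Fin n →₀ ℕ) (i j : Fin n) (hi : i ∈ P) (hj : j ∉ P)
    (h1 : m i ≠ 0) (h2 : m j ≠ 0) : Bad P m := Or.inr (Or.inr ⟨i, hi, j, hj, h1, h2⟩)

/-- `u * part P f - u * f` is in the ideal when `u` only has nonconstant monomials supported on
`P`, `f` without constant term -/
lemma mul_part_sub_mem (P : Finset (Fin n)) (f u : MvPolynomial (Fin n) K)
    (hu : ∀ m ∈ u.support, (∃ i, m i ≠ 0) ∧ ∀ i ∉ P, m i = 0) :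
    u * (f - part P f) ∈ I K P := by
  classical
  rw [mem_I_iff]
  intro m hm
  have h1 := support_mul u (f - part P f) hm
  rw [Finset.mem_add] at h1
  obtain ⟨a, ha, b, hb, rfl⟩ := h1
  obtain ⟨⟨i, hi⟩, hui⟩ := hu a ha
  have hiP : i ∈ P := by
    by_contra hcon
    exact hi (hui i hcon)
  rw [mem_support_iff, coeff_sub, coeff_part] at hb
  split_ifs at hb with h
  · exact absurd (sub_self _) hb
  · push Not at h
    obtain ⟨j, hj, hj0⟩ := h
    exact bad_of_both P _ i j hiP hj (by simp [hi]) (by simp [hj0])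

lemma mul_part_mem (P : Finset (Fin n)) (f u : MvPolynomial (Fin n) K)
    (hf : ∀ m ∈ f.support, ∃ i, m i ≠ 0)
    (hu : ∀ m ∈ u.support, ∃ j ∉ P, m j ≠ 0) :
    u * part P f ∈ I K P := by
  classical
  rw [mem_I_iff]
  intro m hm
  have h1 := support_mul u (part P f) hm
  rw [Finset.mem_add] at h1
  obtain ⟨a, ha, b, hb, rfl⟩ := h1
  obtain ⟨j, hj, hj0⟩ := hu a ha
  obtain ⟨hb1, hb2⟩ := support_part P f b hb
  obtain ⟨i, hi⟩ := hf b hb1
  have hiP : i ∈ P := by
    by_contra hcon
    exact hi (hb2 i hcon)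
  exact bad_of_both P _ i j hiP hj (by simp [hi]) (by simp [hj0])

/-- every `g` in the maximal ideal multiplies `part P f` into `f R + I` -/
lemma mul_part_mem_sup (P : Finset (Fin n)) (f g : MvPolynomial (Fin n) K)
    (hf : ∀ m ∈ f.support, ∃ i, m i ≠ 0) (hg : ∀ m ∈ g.support, ∃ i, m i ≠ 0) :
    ∃ h, g * part P f - f * h ∈ I K P := by
  classical
  refine ⟨part P g, ?_⟩
  have h1 : (part P g) * (f - part P f) ∈ I K P := by
    apply mul_part_sub_mem P f _
    intro m hm
    obtain ⟨h1, h2⟩ := support_part P g m hm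
    exact ⟨hg m h1, h2⟩
  have h2 : (g - part P g) * part P f ∈ I K P := by
    apply mul_part_mem P f _ hf
    intro m hm
    rw [mem_support_iff, coeff_sub, coeff_part] at hm
    split_ifs at hm with h
    · exact absurd (sub_self _) hm
    · push Not at h
      exact h
  have h3 : g * part P f - f * part P g
      = (g - part P g) * part P f - part P g * (f - part P f) := by ring
  rw [h3]
  exact (I K P).sub_mem h2 h1

lemma single_not_bad (P : Finset (Fin n)) (hP : 2 ≤ P.card) (hP' : 2 ≤ Pᶜ.card) (a : Fin n) :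
    ¬ Bad P (Finsupp.single a 1) := by
  classical
  rintro (h | h | ⟨i, hi, j, hj, h1, h2⟩)
  · obtain ⟨b, hb, hba⟩ := Finset.exists_mem_ne (by omega : 1 < P.card) a
    apply h b hb
    rw [Finsupp.single_apply, if_neg (Ne.symm hba)]
  · obtain ⟨b, hb, hba⟩ := Finset.exists_mem_ne (by omega : 1 < Pᶜ.card) a
    apply h b (Finset.mem_compl.mp hb)
    rw [Finsupp.single_apply, if_neg (Ne.symm hba)]
  · rw [Finsupp.single_apply] at h1 h2
    split_ifs at h1 h2 with h3 h4
    · exact hj (h4 ▸ h3 ▸ hi)
    all_goals simp_all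

lemma smul_mk (J : Ideal (MvPolynomial (Fin n) K)) (f u : MvPolynomial (Fin n) K) :
    f • (Ideal.Quotient.mk J u) = Ideal.Quotient.mk J (f * u) := rfl

lemma depth_le (P : Finset (Fin n)) (hP : 2 ≤ P.card) (hP' : 2 ≤ Pᶜ.card) :
    depthQuot (I K P) ≤ 1 := by
  classical
  unfold depthQuot
  apply sSup_le
  rintro _ ⟨rs, hrs, hreg, rfl⟩
  rcases rs with _ | ⟨f, _ | ⟨g, rs⟩⟩
  · simp
  · simp
  · exfalso
    rw [RingTheory.Sequence.isRegular_cons_iff, RingTheory.Sequence.isRegular_cons_iff] at hreg
    obtain ⟨hfreg, hgreg, -⟩ := hreg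
    have hf := mem_idealX_iff f (hrs f (by simp))
    have hg := mem_idealX_iff g (hrs g (by simp))
    -- regularity of `f`
    have hfr : ∀ u, f * u ∈ I K P → u ∈ I K P := by
      intro u hu
      have h0 : f • (Ideal.Quotient.mk (I K P) u) = f • (0 : MvPolynomial (Fin n) K ⧸ I K P) := by
        rw [smul_zero, smul_mk]
        exact Ideal.Quotient.eq_zero_iff_mem.mpr hu
      have := hfreg h0
      exact Ideal.Quotient.eq_zero_iff_mem.mp this
    -- regularity of `g` modulo `f`
    obtain ⟨h, hh⟩ := mul_part_mem_sup P f g hf hg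
    have hmem : ∃ h', part P f - f * h' ∈ I K P := by
      set A := MvPolynomial (Fin n) K ⧸ I K P with hA
      let z : A := Ideal.Quotient.mk (I K P) (part P f)
      have hz : g • (Submodule.Quotient.mk z : QuotSMulTop f A) = g • 0 := by
        rw [smul_zero, ← Submodule.Quotient.mk_smul, Submodule.Quotient.mk_eq_zero]
        have h1 : g • z = f • (Ideal.Quotient.mk (I K P) h : A) := by
          rw [smul_mk, smul_mk, Ideal.Quotient.eq]
          exact hh
        rw [h1]
        exact Submodule.smul_mem_pointwise_smul _ _ _ Submodule.mem_top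
      have hz0 := hgreg hz
      rw [Submodule.Quotient.mk_eq_zero] at hz0
      obtain ⟨w, -, hw⟩ := hz0
      obtain ⟨h', rfl⟩ := Ideal.Quotient.mk_surjective w
      refine ⟨h', ?_⟩
      rw [← Ideal.Quotient.eq]
      exact hw.symm
    obtain ⟨h', hh'⟩ := hmem
    obtain ⟨a, ha⟩ := Finset.card_pos.mp (by omega : 0 < P.card)
    obtain ⟨b, hb⟩ := Finset.card_pos.mp (by omega : 0 < Pᶜ.card)
    rw [Finset.mem_compl] at hb
    -- multiply by `x_a`
    have e1 : X a * (1 - h') ∈ I K P := by
      apply hfr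
      have h1 : (X a : MvPolynomial (Fin n) K) * (f - part P f) ∈ I K P := by
        apply mul_part_sub_mem P f _
        intro m hm
        rw [support_X, Finset.mem_singleton] at hm
        subst hm
        refine ⟨⟨a, by simp⟩, ?_⟩
        intro i hi
        rw [Finsupp.single_apply, if_neg]
        rintro rfl
        exact hi ha
      have h2 : f * (X a * (1 - h')) = X a * (f - part P f) + X a * (part P f - f * h') := by ring
      rw [h2]
      exact (I K P).add_mem h1 ((I K P).mul_mem_left _ hh')
    have e2 : X b * h' ∈ I K P := by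
      apply hfr
      have h1 : (X b : MvPolynomial (Fin n) K) * part P f ∈ I K P := by
        apply mul_part_mem P f _ hf
        intro m hm
        rw [support_X, Finset.mem_singleton] at hm
        subst hm
        exact ⟨b, hb, by simp⟩
      have h2 : f * (X b * h') = X b * part P f - X b * (part P f - f * h') := by ring
      rw [h2]
      exact (I K P).sub_mem h1 ((I K P).mul_mem_left _ hh')
    have c1 : coeff 0 (1 - h') = 0 := by
      by_contra hc
      have h1 : Finsupp.single a 1 ∈ (X a * (1 - h')).support := by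
        rw [mem_support_iff, mul_comm, ← zero_add (Finsupp.single a 1), coeff_mul_X]
        exact hc
      exact single_not_bad P hP hP' a ((mem_I_iff P _).mp e1 _ h1)
    have c2 : coeff 0 h' = 0 := by
      by_contra hc
      have h1 : Finsupp.single b 1 ∈ (X b * h').support := by
        rw [mem_support_iff, mul_comm, ← zero_add (Finsupp.single b 1), coeff_mul_X]
        exact hc
      exact single_not_bad P hP hP' b ((mem_I_iff P _).mp e2 _ h1)
    rw [coeff_sub, c2, coeff_zero_one, sub_zero] at c1
    exact one_ne_zero c1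

/-- setting the variables in `T` to zero -/
noncomputable def rho (T : Finset (Fin n)) :
    MvPolynomial (Fin n) K →ₐ[K] MvPolynomial (Fin n) K :=
  aeval (fun i => if i ∈ T then (0 : MvPolynomial (Fin n) K) else X i)

lemma rho_monomial (T : Finset (Fin n)) (m : Fin n →₀ ℕ) (c : K)
    [Decidable (∃ i ∈ T, m i ≠ 0)] :
    rho T (monomial m c) = if (∃ i ∈ T, m i ≠ 0) then 0 else monomial m c := by
  classical
  unfold rho
  rw [aeval_monomial]
  split_ifs with h
  · obtain ⟨i, hi, him⟩ := h
    rw [Finsupp.prod, Finset.prod_eq_zero (Finsupp.mem_support_iff.mpr him), mul_zero]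
    rw [if_pos hi, zero_pow him]
  · push Not at h
    rw [monomial_eq]
    congr 1
    apply Finsupp.prod_congr
    intro i hi
    rw [if_neg]
    intro hiT
    exact (Finsupp.mem_support_iff.mp hi) (h i hiT)

lemma rho_eq_zero_iff (T : Finset (Fin n)) (r : MvPolynomial (Fin n) K) :
    rho T r = 0 ↔ ∀ m ∈ r.support, ∃ i ∈ T, m i ≠ 0 := by
  classical
  have h1 : rho T r = ∑ m ∈ r.support.filter (fun m => ¬ ∃ i ∈ T, m i ≠ 0),
      monomial m (coeff m r) := by
    conv_lhs => rw [r.as_sum, map_sum]
    rw [Finset.sum_filter]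
    apply Finset.sum_congr rfl
    intro m _
    rw [rho_monomial]
    by_cases h : ∃ i ∈ T, m i ≠ 0
    · rw [if_pos h, if_neg (not_not.mpr h)]
    · rw [if_neg h, if_pos h]
  constructor
  · intro h m hm
    by_contra hcon
    have h2 : coeff m (rho T r) = coeff m r := by
      rw [h1, coeff_sum]
      simp only [coeff_monomial]
      rw [Finset.sum_ite_eq', if_pos (Finset.mem_filter.mpr ⟨hm, hcon⟩)]
    rw [h, coeff_zero] at h2
    exact (mem_support_iff.mp hm) h2.symm
  · intro h
    rw [h1, Finset.filter_false_of_mem, Finset.sum_empty]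
    intro m hm hcon
    exact hcon (h m hm)

lemma vNumber_le (P : Finset (Fin n)) (k : ℕ) (hk : 2 ≤ k) (hP : P.card = k)
    (hP' : Pᶜ.card = k) : vNumber (I K P) ≤ ((k - 1 : ℕ) : ℕ∞) := by
  classical
  obtain ⟨a, ha⟩ := Finset.card_pos.mp (by omega : 0 < P.card)
  obtain ⟨b, hb⟩ := Finset.card_pos.mp (by omega : 0 < Pᶜ.card)
  rw [Finset.mem_compl] at hb
  unfold vNumber
  apply sInf_le
  let f : MvPolynomial (Fin n) K := ∏ i ∈ P.erase a, X i
  have hcol : Submodule.colon (I K P) ({f} : Set (MvPolynomial (Fin n) K))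
      = RingHom.ker (rho (K := K) (insert a Pᶜ)).toRingHom := by
    ext r
    rw [Submodule.mem_colon_singleton, RingHom.mem_ker]
    change r * f ∈ I K P ↔ rho (insert a Pᶜ) r = 0
    rw [rho_eq_zero_iff, mem_I_iff]
    have hs : (r * f).support = r.support.map (addRightEmbedding (ind (P.erase a))) := by
      have h1 : f = monomial (ind (P.erase a)) 1 := prod_X_eq _
      rw [h1]
      ext m
      simp only [mem_support_iff, Finset.mem_map, addRightEmbedding_apply]
      rw [coeff_mul_monomial']
      constructor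
      · intro h
        split_ifs at h with hle
        · exact ⟨m - ind (P.erase a), by simpa using h, tsub_add_cancel_of_le hle⟩
        · exact absurd rfl h
      · rintro ⟨m', hm', rfl⟩
        rw [if_pos (by exact le_add_self), add_tsub_cancel_right, mul_one]
        exact hm'
    rw [hs]
    simp only [Finset.mem_map, addRightEmbedding_apply, forall_exists_index, and_imp,
      forall_apply_eq_imp_iff₂]
    refine forall₂_congr fun m _ => ?_
    constructor
    · rintro (h | h | ⟨i, hi, j, hj, h1, h2⟩)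
      · refine ⟨a, by simp, ?_⟩
        have := h a ha
        rwa [Finsupp.add_apply, ind_apply, if_neg (by simp), add_zero] at this
      · refine ⟨b, by simp [hb], ?_⟩
        have := h b hb
        rwa [Finsupp.add_apply, ind_apply, if_neg (by simp [hb]), add_zero] at this
      · refine ⟨j, by simp [hj], ?_⟩
        rwa [Finsupp.add_apply, ind_apply, if_neg (by simp [hj]), add_zero] at h2
    · rintro ⟨i, hi, him⟩
      rw [Finset.mem_insert, Finset.mem_compl] at hi
      rcases hi with rfl | hi
      · left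
        intro l hl
        rw [Finsupp.add_apply, ind_apply]
        by_cases hli : l = i
        · subst hli
          omega
        · rw [if_pos (Finset.mem_erase.mpr ⟨hli, hl⟩)]
          omega
      · obtain ⟨c, hc, hca⟩ := Finset.exists_mem_ne (by omega : 1 < P.card) a
        right; right
        refine ⟨c, hc, i, hi, ?_, ?_⟩
        · rw [Finsupp.add_apply, ind_apply, if_pos (Finset.mem_erase.mpr ⟨hca, hc⟩)]
          omega
        · rw [Finsupp.add_apply]
          omega
  refine ⟨k - 1, f, rfl, ?_, ?_⟩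
  · have h1 := IsHomogeneous.prod (P.erase a) (fun i => (X i : MvPolynomial (Fin n) K))
      (fun _ => 1) (fun i _ => isHomogeneous_X K i)
    rw [Finset.sum_const, Finset.card_erase_of_mem ha, hP] at h1
    simpa using h1
  · have hprime : (Submodule.colon (I K P) ({f} : Set (MvPolynomial (Fin n) K))).IsPrime := by
      rw [hcol]
      exact RingHom.ker_isPrime _
    rw [AssociatedPrimes.mem_iff, isAssociatedPrime_iff]
    refine ⟨hprime, Ideal.Quotient.mk (I K P) f, ?_⟩
    ext r
    rw [Submodule.mem_colon_singleton, Submodule.mem_colon_singleton, smul_mk,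
      Submodule.mem_bot, Ideal.Quotient.eq_zero_iff_mem]
    rfl

end aux

/-- For every field `K` and every `N` there is a squarefree monomial ideal `I` of a polynomial ring
`R` over `K` in finitely many variables with `depth (R/I) ≤ 1` and `v(I) = N + 2`. In particular
`v(I) ≤ depth (R/I)` fails over every field, and `v(I) - depth (R/I)` is unbounded. -/
theorem result (K : Type*) [Field K] (N : ℕ) :
    ∃ (n : ℕ) (I : Ideal (MvPolynomial (Fin n) K)), IsSquarefreeMonomialIdeal I ∧
      depthQuot I ≤ 1 ∧ vNumber I = ((N + 2 : ℕ) : ℕ∞) := by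
  classical
  set k := N + 3 with hk
  let P : Finset (Fin (k + k)) := Finset.univ.filter (fun i => i.val < k)
  have hPc : P.card = k := by
    have : P = (Finset.univ : Finset (Fin k)).map (Fin.castAddEmb k) := by
      ext i
      simp only [P, Finset.mem_filter, Finset.mem_univ, true_and, Finset.mem_map]
      constructor
      · intro h
        exact ⟨⟨i.val, h⟩, rfl⟩
      · rintro ⟨j, rfl⟩
        exact j.2
    rw [this, Finset.card_map, Finset.card_univ, Fintype.card_fin]
  have hPc' : Pᶜ.card = k := by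
    rw [Finset.card_compl, Fintype.card_fin, hPc]
    omega
  refine ⟨k + k, I K P, ⟨?_, gens P, rfl⟩, depth_le P (by omega) (by omega), ?_⟩
  · intro htop
    have h1 : (1 : MvPolynomial (Fin (k + k)) K) ∈ I K P := by
      rw [htop]; exact Submodule.mem_top
    rw [mem_I_iff] at h1
    have h2 := h1 0 (by simp)
    rcases h2 with h | h | ⟨i, hi, j, hj, h1, h2⟩
    · obtain ⟨a, ha⟩ := Finset.card_pos.mp (by omega : 0 < P.card)
      exact h a ha rfl
    · obtain ⟨a, ha⟩ := Finset.card_pos.mp (by omega : 0 < Pᶜ.card)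
      exact h a (Finset.mem_compl.mp ha) rfl
    · exact h1 rfl
  · have h2 := vNumber_ge (K := K) P k (by omega) hPc hPc'
    have h3 := vNumber_le (K := K) P k (by omega) hPc hPc'
    have h4 : k - 1 = N + 2 := by omega
    rw [h4] at h2 h3
    exact le_antisymm h3 h2

end Pool.Agent.Results.MP_d06a13_ag.VNumberExceedsDepth
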